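import Mathlib
import Pool.Agent.SZG.StmtsF

set_option autoImplicit false

/-! Row ALT of the squad SZG: relations between the rows give theta functions. -/

namespace Pool.Agent.SZG.H50

open scoped BigOperators
open Pool.Agent.THS Pool.Agent.SZG

/-- The function attached to a row. -/
noncomputable def fr {g : ℕ} (τ : Matrix (Fin g) (Fin g) ℂ) (l : ℕ) (r : Row g l)
    (w : Fin g → ℂ) : ℂ := FF τ l (lft r.2).2.1 (lft r.2).2.2 r.1 w

theorem alt (fqp : FqpStmt) (fdf : FdfStmt) (fl1 : Fl1Stmt) (fl2 : Fl2Stmt)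
    (evb : THS.EvbStatement) : AltStmt := by
  intro g K _ φ τ hτ z l hl e T ν η hν hη hM m κ hκ hrel
  have hl0 : 0 < l := hl.pos
  set H : Row g l → ℂ := fun r => η (lft r.2).2.1 (lft r.2).2.2 with hH
  have hHne : ∀ r, H r ≠ 0 := fun r => hη _ _
  refine ⟨fun j w => ∑ r : Row g l, φ (κ j r) * H r * fr τ l r w, ?_, ?_⟩
  · rw [Fintype.linearIndependent_iff]
    intro u hu
    -- coefficients
    have h1 : ∀ w, ∑ r : Row g l, ((∑ j, u j * φ (κ j r)) * H r) * fr τ l r w = 0 := by
      intro w
      have h := congrFun hu w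
      simp only [Finset.sum_apply, Pi.smul_apply, smul_eq_mul, Pi.zero_apply] at h
      rw [← h]
      simp only [Finset.mul_sum, Finset.sum_mul]
      rw [Finset.sum_comm]
      refine Finset.sum_congr rfl fun j _ => Finset.sum_congr rfl fun r _ => ?_
      ring
    have h2 : ∀ r : Row g l, (∑ j, u j * φ (κ j r)) * H r = 0 := by
      rintro ⟨a, p, q⟩
      have h3 := fl1 g τ hτ l hl (fun r => (∑ j, u j * φ (κ j r)) * H r) h1 a q
      exact fl2 g τ hτ l hl a q
        (fun p => (∑ j, u j * φ (κ j (a, p, q))) * H (a, p, q)) h3 p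
    have h4 : ∀ r : Row g l, ∑ j, u j * φ (κ j r) = 0 := fun r =>
      (mul_eq_zero.mp (h2 r)).resolve_right (hHne r)
    obtain ⟨q, hq⟩ := evb K (Row g l) m κ hκ
    have h5 : (Matrix.of fun i j => φ (κ i (q j))).det ≠ 0 := by
      have h6 : (Matrix.of fun i j => φ (κ i (q j))) = (Matrix.of fun i j => κ i (q j)).map φ := by
        ext i j
        simp [Matrix.map_apply]
      rw [h6, ← RingHom.mapMatrix_apply, ← RingHom.map_det]
      exact (map_ne_zero φ).mpr hq
    have h7 : Matrix.vecMul u (Matrix.of fun i j => φ (κ i (q j))) = 0 := by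
      funext i
      simp only [Matrix.vecMul, dotProduct, Matrix.of_apply, Pi.zero_apply]
      exact h4 (q i)
    have h8 := Matrix.eq_zero_of_vecMul_eq_zero h5 h7
    intro j
    rw [h8]
    rfl
  · intro j
    refine ⟨?_, ?_, ?_⟩
    · have hd : ∀ r : Row g l, Differentiable ℂ (fun w => φ (κ j r) * H r * fr τ l r w) := by
        intro r
        exact (fdf g τ hτ l _ _ r.1).const_mul _
      exact Differentiable.fun_sum fun r _ => hd r
    · intro w P Q
      show ∑ r : Row g l, φ (κ j r) * H r * fr τ l r _ = _ * ∑ r : Row g l, φ (κ j r) * H r * fr τ l r w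
      rw [Finset.mul_sum]
      refine Finset.sum_congr rfl fun r _ => ?_
      have h := fqp g τ hτ l (lft r.2).2.1 (lft r.2).2.2 r.1 w P Q hl0
      show φ (κ j r) * H r * FF τ l (lft r.2).2.1 (lft r.2).2.2 r.1 _
        = _ * (φ (κ j r) * H r * FF τ l (lft r.2).2.1 (lft r.2).2.2 r.1 w)
      rw [h]
      ring
    · intro k
      have h := congrArg φ (hrel j k)
      rw [map_sum, map_zero] at h
      have h9 : ν k * ∑ r : Row g l, φ (κ j r) * H r * fr τ l r (fun i => (k : ℂ) * z i) = 0 := by
        rw [← h, Finset.mul_sum]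
        refine Finset.sum_congr rfl fun r _ => ?_
        rw [map_mul]
        have h10 : φ (Mp l e T (Zz g) (lft r.2) k r.1)
            = ν k * H r * fr τ l r (fun i => (k : ℂ) * z i) :=
          hM (lft r.2).2.1 (lft r.2).2.2 k r.1
        rw [h10]
        ring
      exact (mul_eq_zero.mp h9).resolve_left (hν k)

end Pool.Agent.SZG.H50
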